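import Pool.Agent.Lib.P62i.Asm

/-!
# Geometric uniform boundedness in dimension `N` for the maps `x ↦ A x^(m) + q(x)`
-/

namespace Pool.Agent.Results.MP_62a0c3_nt.HigherDimension

open MvPolynomial IntermediateField

universe u

/-- The self-map of `ℙ^N(K)` given by the forms `Φ_0, …, Φ_N` (a point at which all of them vanish
is left fixed; there is none if `Φ` is an endomorphism and `K` is algebraically closed). -/
noncomputable def act {K : Type*} [Field K] {N : ℕ}
    (Φ : Fin (N + 1) → MvPolynomial (Fin (N + 1)) K)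
    (x : Projectivization K (Fin (N + 1) → K)) : Projectivization K (Fin (N + 1) → K) :=
  open Classical in
  if h : (fun i => eval x.rep (Φ i)) ≠ 0 then Projectivization.mk K _ h else x

/-- `Φ` is an endomorphism of degree `d` of `ℙ^N` over the (algebraically closed) field `K`: forms of
degree `d` without a common zero in `ℙ^N(K)`. -/
def IsEndo {K : Type*} [Field K] {N : ℕ} (d : ℕ)
    (Φ : Fin (N + 1) → MvPolynomial (Fin (N + 1)) K) : Prop :=
  (∀ i, (Φ i).IsHomogeneous d) ∧ ∀ v : Fin (N + 1) → K, (∀ i, eval v (Φ i) = 0) → v = 0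

/-- The projective linear map given by the matrix `M`. -/
noncomputable def lin {K : Type*} [Field K] {N : ℕ} (M : Matrix (Fin (N + 1)) (Fin (N + 1)) K) :
    Projectivization K (Fin (N + 1) → K) → Projectivization K (Fin (N + 1) → K) :=
  act fun i => ∑ j, C (M i j) * X j

/-- Base change to the field `K`. -/
noncomputable def baseChange {k : Type*} [Field k] {N : ℕ} (K : Type*) [Field K] [Algebra k K]
    (Φ : Fin (N + 1) → MvPolynomial (Fin (N + 1)) k) (i : Fin (N + 1)) :
    MvPolynomial (Fin (N + 1)) K :=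
  map (algebraMap k K) (Φ i)

/-- The endomorphism `Φ` of degree `d` over `k` is isotrivial: over the algebraic closure it is
conjugate by a projective linear map to an endomorphism of degree `d` over `ℂ`. -/
def Isotrivial (k : Type u) [Field k] [Algebra ℂ k] {N : ℕ} (d : ℕ)
    (Φ : Fin (N + 1) → MvPolynomial (Fin (N + 1)) k) : Prop :=
  ∃ M : Matrix (Fin (N + 1)) (Fin (N + 1)) (AlgebraicClosure k), M.det ≠ 0 ∧
    ∃ Φ₀ : Fin (N + 1) → MvPolynomial (Fin (N + 1)) ℂ, IsEndo d Φ₀ ∧
      ∀ x, act (baseChange (AlgebraicClosure k) Φ) (lin M x) =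
        lin M (act (baseChange (AlgebraicClosure k) Φ₀) x)

/-- The field `k(x)` of a point `x` of `ℙ^N` over the algebraic closure: it is generated by the
quotients of the homogeneous coordinates. -/
noncomputable def fieldOf (k : Type u) [Field k] {N : ℕ}
    (x : Projectivization (AlgebraicClosure k) (Fin (N + 1) → AlgebraicClosure k)) :
    IntermediateField k (AlgebraicClosure k) :=
  IntermediateField.adjoin k {z | ∃ i j, z = x.rep i / x.rep j}

/-- The gonality of the function field `K` is at most `D`: there is a transcendental `y` with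
`[K : ℂ(y)] ≤ D`. -/
def GonalityLE (K : Type u) [Field K] [Algebra ℂ K] (D : ℕ) : Prop :=
  ∃ y : K, Transcendental ℂ y ∧ 0 < Module.finrank ℂ⟮y⟯ K ∧ Module.finrank ℂ⟮y⟯ K ≤ D

/-- The set `Preper(Φ, D)`. -/
def Preper (k : Type u) [Field k] [Algebra ℂ k] {N : ℕ}
    (Φ : Fin (N + 1) → MvPolynomial (Fin (N + 1)) k) (D : ℕ) :
    Set (Projectivization (AlgebraicClosure k) (Fin (N + 1) → AlgebraicClosure k)) :=
  {x | (Set.range fun n : ℕ => (act (baseChange (AlgebraicClosure k) Φ))^[n] x).Finite ∧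
    GonalityLE (fieldOf k x) D}

/-- `Φ` is `[X_0 ^ m : … : ∑ b, A a b * X_b ^ m + X_0 ^ (m - e) * r_a : …]` with an invertible
`N × N` matrix `A` and forms `r_a` of degree `e`. On the affine space `X_0 = 1` this is the map
`x ↦ A x^(m) + q(x)` with polynomials `q_a` of degree at most `e`, where
`x^(m) = (x_1 ^ m, …, x_N ^ m)`. -/
def PowerType {k : Type*} [Field k] {N : ℕ} (m e : ℕ)
    (Φ : Fin (N + 1) → MvPolynomial (Fin (N + 1)) k) : Prop :=
  Φ 0 = X 0 ^ m ∧ ∃ A : Matrix (Fin N) (Fin N) k, A.det ≠ 0 ∧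
    ∃ r : Fin N → MvPolynomial (Fin (N + 1)) k, (∀ a, (r a).IsHomogeneous e) ∧
      ∀ a, Φ a.succ = ∑ b, C (A a b) * X b.succ ^ m + X 0 ^ (m - e) * r a

/-- With `W = N + (e + 1) ^ N` and `B = 2 W N (e + 1)` this is
`2 (W ^ 2 (D ^ 4 + 1 + W + W B) + B)`. -/
def bound (N e D : ℕ) : ℕ :=
  2 * ((N + (e + 1) ^ N) ^ 2 * (D ^ 4 + 1 + (N + (e + 1) ^ N) +
    (N + (e + 1) ^ N) * (2 * ((N + (e + 1) ^ N) * (N * (e + 1))))) +
      2 * ((N + (e + 1) ^ N) * (N * (e + 1))))

section aux

open Pool.Agent.Lib.P62i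

variable {K : Type*} [Field K] {N : ℕ}

theorem eval_smul' {p : MvPolynomial (Fin (N + 1)) K} {d : ℕ} (hp : p.IsHomogeneous d)
    (c : K) (v : Fin (N + 1) → K) : eval (c • v) p = c ^ d * eval v p := by
  have h := eval_smul_form (K := K) hp c v
  rwa [aeval_eq_eval, aeval_eq_eval] at h

theorem act_mk {d : ℕ} {Φ : Fin (N + 1) → MvPolynomial (Fin (N + 1)) K} (hΦ : IsEndo d Φ)
    (v : Fin (N + 1) → K) (hv : v ≠ 0) (hv' : (fun i => eval v (Φ i)) ≠ 0) :
    act Φ (Projectivization.mk K v hv) = Projectivization.mk K (fun i => eval v (Φ i)) hv' := by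
  have h1 : (fun i => eval (Projectivization.mk K v hv).rep (Φ i)) ≠ 0 := fun h =>
    (Projectivization.mk K v hv).rep_nonzero (hΦ.2 _ fun i => congrFun h i)
  rw [act, dif_pos h1, Projectivization.mk_eq_mk_iff']
  obtain ⟨a, ha⟩ := (Projectivization.mk_eq_mk_iff' K _ _
    (Projectivization.mk K v hv).rep_nonzero hv).1 (Projectivization.mk_rep _)
  refine ⟨a ^ d, ?_⟩
  funext i
  rw [Pi.smul_apply, smul_eq_mul, ← eval_smul' (hΦ.1 i), ha]

theorem ne_zero_of_endo {d : ℕ} {Φ : Fin (N + 1) → MvPolynomial (Fin (N + 1)) K}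
    (hΦ : IsEndo d Φ) {v : Fin (N + 1) → K} (hv : v ≠ 0) : (fun i => eval v (Φ i)) ≠ 0 := fun h =>
  hv (hΦ.2 v fun i => congrFun h i)

theorem isEndo_diag (s : Fin (N + 1) → K) (hs : ∀ i, s i ≠ 0) :
    IsEndo 1 fun i => ∑ j, C ((Matrix.diagonal s) i j) * (X j : MvPolynomial (Fin (N + 1)) K) := by
  refine ⟨fun i => ?_, fun v hv => ?_⟩
  · refine IsHomogeneous.sum _ _ _ fun j _ => ?_
    have := (isHomogeneous_C (Fin (N + 1)) ((Matrix.diagonal s) i j)).mul
      (isHomogeneous_X K j)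
    rwa [zero_add] at this
  · funext i
    have h := hv i
    rw [map_sum, Finset.sum_eq_single i] at h
    · rw [map_mul, eval_C, eval_X, Matrix.diagonal_apply_eq] at h
      exact (mul_eq_zero.1 h).resolve_left (hs i)
    · intro j _ hj
      rw [Matrix.diagonal_apply_ne _ (Ne.symm hj), C_0, zero_mul, map_zero]
    · intro h'
      exact absurd (Finset.mem_univ i) h'

theorem eval_diag (s : Fin (N + 1) → K) (v : Fin (N + 1) → K) (i : Fin (N + 1)) :
    eval v (∑ j, C ((Matrix.diagonal s) i j) * (X j : MvPolynomial (Fin (N + 1)) K)) =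
      s i * v i := by
  rw [map_sum, Finset.sum_eq_single i]
  · rw [map_mul, eval_C, eval_X, Matrix.diagonal_apply_eq]
  · intro j _ hj
    rw [Matrix.diagonal_apply_ne _ (Ne.symm hj), C_0, zero_mul, map_zero]
  · intro h'
    exact absurd (Finset.mem_univ i) h'

theorem cons_ne_zero (y : Fin N → K) : (Fin.cons 1 y : Fin (N + 1) → K) ≠ 0 := by
  intro h
  have h1 := congrFun h 0
  rw [Fin.cons_zero] at h1
  exact one_ne_zero h1

/-- The point of `ℙ^N` with affine coordinates `y`. -/
noncomputable def pt (y : Fin N → K) : Projectivization K (Fin (N + 1) → K) :=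
  Projectivization.mk K (Fin.cons 1 y) (cons_ne_zero y)

theorem pt_injective : Function.Injective (pt (K := K) (N := N)) := by
  intro y y' h
  obtain ⟨a, ha⟩ := (Projectivization.mk_eq_mk_iff' K _ _ _ _).1 h
  have h0 := congrFun ha 0
  rw [Pi.smul_apply, Fin.cons_zero, Fin.cons_zero, smul_eq_mul, mul_one] at h0
  rw [h0, one_smul] at ha
  funext i
  have h1 := congrFun ha i.succ
  rw [Fin.cons_succ, Fin.cons_succ] at h1
  exact h1.symm

variable {k : Type*} [Field k] [Algebra k K]

theorem eval_baseChange (Φ : Fin (N + 1) → MvPolynomial (Fin (N + 1)) k) (v : Fin (N + 1) → K)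
    (i : Fin (N + 1)) : eval v (baseChange K Φ i) = aeval v (Φ i) := by
  rw [baseChange, eval_map, aeval_def]

theorem act_pt {e m : ℕ} (Φ : Fin (N + 1) → MvPolynomial (Fin (N + 1)) k)
    (hE : IsEndo m (baseChange K Φ)) (h0 : Φ 0 = X 0 ^ m) (A : Matrix (Fin N) (Fin N) k)
    (r : Fin N → MvPolynomial (Fin (N + 1)) k) (hr : ∀ a, (r a).IsHomogeneous e)
    (hΦ : ∀ a, Φ a.succ = ∑ b, C (A a b) * X b.succ ^ m + X 0 ^ (m - e) * r a) (y : Fin N → K) :
    act (baseChange K Φ) (pt y) = pt (affm K e m A r y) := by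
  have h1 := act_mk hE (Fin.cons 1 y) (cons_ne_zero y) (ne_zero_of_endo hE (cons_ne_zero y))
  rw [pt, h1, pt]
  congr 1
  rw [← step_cons Φ h0 A r hr hΦ y]
  funext i
  exact eval_baseChange Φ _ i

theorem act_pt_iter {e m : ℕ} (Φ : Fin (N + 1) → MvPolynomial (Fin (N + 1)) k)
    (hE : IsEndo m (baseChange K Φ)) (h0 : Φ 0 = X 0 ^ m) (A : Matrix (Fin N) (Fin N) k)
    (r : Fin N → MvPolynomial (Fin (N + 1)) k) (hr : ∀ a, (r a).IsHomogeneous e)
    (hΦ : ∀ a, Φ a.succ = ∑ b, C (A a b) * X b.succ ^ m + X 0 ^ (m - e) * r a) (i : ℕ) :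
    ∀ y : Fin N → K,
    (act (baseChange K Φ))^[i] (pt y) = pt ((affm K e m A r)^[i] y) := by
  induction i with
  | zero => intro y; rfl
  | succ i ih =>
    intro y
    rw [Function.iterate_succ_apply, act_pt Φ hE h0 A r hr hΦ, ih, Function.iterate_succ_apply]

theorem affm_map {L : Type*} [Field L] [Algebra k L] [Algebra L K] [IsScalarTower k L K] {e m : ℕ}
    (A : Matrix (Fin N) (Fin N) k) (r : Fin N → MvPolynomial (Fin (N + 1)) k) (y : Fin N → L) :
    affm K e m A r (fun a => algebraMap L K (y a)) =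
      fun a => algebraMap L K (affm L e m A r y a) := by
  funext a
  rw [affm, affm, lac, lac, map_add, map_sum, map_sum]
  congr 1
  · refine Finset.sum_congr rfl fun b _ => ?_
    rw [map_mul, map_pow, ← IsScalarTower.algebraMap_apply]
  · refine Finset.sum_congr rfl fun s _ => ?_
    rw [map_mul, Pool.Agent.Lib.P62i.map_mono, ← IsScalarTower.algebraMap_apply]

theorem affm_map_iter {L : Type*} [Field L] [Algebra k L] [Algebra L K] [IsScalarTower k L K]
    {e m : ℕ} (A : Matrix (Fin N) (Fin N) k) (r : Fin N → MvPolynomial (Fin (N + 1)) k) (i : ℕ) :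
    ∀ y : Fin N → L, (affm K e m A r)^[i] (fun a => algebraMap L K (y a)) =
      fun a => algebraMap L K ((affm L e m A r)^[i] y a) := by
  induction i with
  | zero => intro y; rfl
  | succ i ih =>
    intro y
    rw [Function.iterate_succ_apply, affm_map, ih, Function.iterate_succ_apply]

/-- The conjugate map over the constants. -/
noncomputable def phi0 {e : ℕ} (m : ℕ) (A0 : Matrix (Fin N) (Fin N) ℂ) (q0 : Fin N → Sx N e → ℂ) :
    Fin (N + 1) → MvPolynomial (Fin (N + 1)) ℂ :=
  Fin.cons (X 0 ^ m) fun a => ∑ b, C (A0 a b) * X b.succ ^ m +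
    ∑ s : Sx N e, monomial (cns (m - ∑ a, exS s a) (exS s)) (q0 a s)

theorem phi0_endo {e m : ℕ} (he : e < m) (A0 : Matrix (Fin N) (Fin N) ℂ) (hA0 : A0.det ≠ 0)
    (q0 : Fin N → Sx N e → ℂ) : IsEndo m (phi0 m A0 q0) := by
  refine ⟨fun i => ?_, fun v hv => ?_⟩
  · refine Fin.cases ?_ (fun a => ?_) i
    · rw [phi0, Fin.cons_zero]
      have := (isHomogeneous_X ℂ (0 : Fin (N + 1))).pow m
      rwa [one_mul] at this
    · rw [phi0, Fin.cons_succ]
      refine IsHomogeneous.add ?_ ?_
      · refine IsHomogeneous.sum _ _ _ fun b _ => ?_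
        have := (isHomogeneous_C (Fin (N + 1)) (A0 a b)).mul
          ((isHomogeneous_X ℂ b.succ).pow m)
        rwa [zero_add, one_mul] at this
      · refine IsHomogeneous.sum _ _ _ fun s _ => ?_
        refine isHomogeneous_monomial _ ?_
        rw [cns_degree]
        have := exS_sum s
        omega
  · have h0 : v 0 = 0 := by
      have h := hv 0
      rw [phi0, Fin.cons_zero, map_pow, eval_X] at h
      exact pow_eq_zero_iff (by omega) |>.1 h
    have h1 : (fun b : Fin N => v b.succ ^ m) = 0 := by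
      apply mulVec_inj_aux A0 hA0
      intro a
      have h := hv a.succ
      rw [phi0, Fin.cons_succ, map_add, map_sum, map_sum] at h
      have h2 : ∑ s : Sx N e, eval v (monomial (cns (m - ∑ a, exS s a) (exS s)) (q0 a s)) = 0 := by
        refine Finset.sum_eq_zero fun s _ => ?_
        have h3 := aeval_cns (k := ℂ) (K := ℂ) v (m - ∑ a, exS s a) (exS s) (q0 a s)
        rw [aeval_eq_eval] at h3
        rw [h3, h0, zero_pow, zero_mul, mul_zero]
        have := exS_sum s
        omega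
      rw [h2, add_zero] at h
      rw [← h]
      refine Finset.sum_congr rfl fun b _ => ?_
      rw [map_mul, eval_C, map_pow, eval_X]
    funext i
    refine Fin.cases h0 (fun b => ?_) i
    have h2 := congrFun h1 b
    exact pow_eq_zero_iff (by omega) |>.1 h2

theorem isotrivial_of {k : Type u} [Field k] [Algebra ℂ k] {N e m : ℕ} (he : e < m)
    (Φ : Fin (N + 1) → MvPolynomial (Fin (N + 1)) k)
    (hE : IsEndo m (baseChange (AlgebraicClosure k) Φ)) (h0 : Φ 0 = X 0 ^ m)
    (A : Matrix (Fin N) (Fin N) k) (r : Fin N → MvPolynomial (Fin (N + 1)) k)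
    (hr : ∀ a, (r a).IsHomogeneous e)
    (hΦ : ∀ a, Φ a.succ = ∑ b, C (A a b) * X b.succ ^ m + X 0 ^ (m - e) * r a)
    (s : Fin N → AlgebraicClosure k) (hs : ∀ a, s a ≠ 0) (A0 : Matrix (Fin N) (Fin N) ℂ)
    (hA0 : A0.det ≠ 0) (q0 : Fin N → Sx N e → ℂ)
    (h1 : ∀ a b, algebraMap k (AlgebraicClosure k) (A a b) * s b ^ m =
      s a * algebraMap ℂ (AlgebraicClosure k) (A0 a b))
    (h2 : ∀ a t, algebraMap k (AlgebraicClosure k) (cf (r a) t) * mono s (exS t) =
      s a * algebraMap ℂ (AlgebraicClosure k) (q0 a t)) : Isotrivial k m Φ := by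
  obtain ⟨σ, hσ⟩ : ∃ σ : Fin (N + 1) → AlgebraicClosure k, σ = Fin.cons 1 s := ⟨_, rfl⟩
  have hσ0 : ∀ i, σ i ≠ 0 := by
    intro i
    rw [hσ]
    exact Fin.cases one_ne_zero hs i
  refine ⟨Matrix.diagonal σ, ?_, phi0 m A0 q0, phi0_endo he A0 hA0 q0, fun x => ?_⟩
  · rw [Matrix.det_diagonal]
    exact Finset.prod_ne_zero_iff.2 fun i _ => hσ0 i
  have hE0 : IsEndo m (baseChange (AlgebraicClosure k) (phi0 m A0 q0)) := by
    refine ⟨fun i => ((phi0_endo he A0 hA0 q0).1 i).map _, fun v hv => ?_⟩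
    have hv' : ∀ i, aeval v (phi0 m A0 q0 i) = 0 := fun i => by
      rw [← eval_baseChange]; exact hv i
    have hv0 : v 0 = 0 := by
      have h := hv' 0
      rw [phi0, Fin.cons_zero, map_pow, aeval_X] at h
      exact pow_eq_zero_iff (by omega) |>.1 h
    have hv1 : (fun b : Fin N => v b.succ ^ m) = 0 := by
      apply mulVec_inj_aux ((algebraMap ℂ (AlgebraicClosure k)).mapMatrix A0)
      · rw [← RingHom.map_det]
        exact (map_ne_zero _).2 hA0
      intro a
      have h := hv' a.succ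
      rw [phi0, Fin.cons_succ, map_add, map_sum, map_sum] at h
      have h2 : ∑ s : Sx N e, aeval v (monomial (cns (m - ∑ a, exS s a) (exS s)) (q0 a s)) =
          0 := by
        refine Finset.sum_eq_zero fun s _ => ?_
        rw [aeval_cns, hv0, zero_pow, zero_mul, mul_zero]
        have := exS_sum s
        omega
      rw [h2, add_zero] at h
      rw [← h]
      refine Finset.sum_congr rfl fun b _ => ?_
      rw [map_mul, aeval_C, map_pow, aeval_X]
      rfl
    funext i
    refine Fin.cases hv0 (fun b => ?_) i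
    have h2 := congrFun hv1 b
    exact pow_eq_zero_iff (by omega) |>.1 h2
  induction x using Projectivization.ind with
  | h v hv =>
    have hL := isEndo_diag σ hσ0
    rw [lin, act_mk hL v hv (ne_zero_of_endo hL hv),
      act_mk hE _ _ (ne_zero_of_endo hE (ne_zero_of_endo hL hv)),
      act_mk hE0 v hv (ne_zero_of_endo hE0 hv),
      act_mk hL _ _ (ne_zero_of_endo hL (ne_zero_of_endo hE0 hv))]
    congr 1
    funext i
    have hev : (fun i => eval v (∑ j, C ((Matrix.diagonal σ) i j) *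
        (X j : MvPolynomial (Fin (N + 1)) (AlgebraicClosure k)))) = fun i => σ i * v i :=
      funext fun i => eval_diag σ v i
    rw [eval_diag, hev, eval_baseChange, eval_baseChange]
    refine Fin.cases ?_ (fun a => ?_) i
    · rw [h0, phi0, Fin.cons_zero, map_pow, aeval_X, map_pow, aeval_X, hσ, Fin.cons_zero, one_mul,
        one_mul]
    · rw [hΦ, phi0, Fin.cons_succ, map_add, map_add, map_sum, map_sum, map_sum, mul_add, hσ,
        Fin.cons_succ]
      congr 1
      · rw [Finset.mul_sum]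
        refine Finset.sum_congr rfl fun b _ => ?_
        rw [map_mul, map_mul, aeval_C, aeval_C, map_pow, map_pow, aeval_X, aeval_X, Fin.cons_succ,
          mul_pow, ← mul_assoc, h1, mul_assoc]
      · rw [map_mul, map_pow, aeval_X, aeval_form (hr a), Finset.mul_sum, Finset.mul_sum,
          Fin.cons_zero, one_mul]
        refine Finset.sum_congr rfl fun t _ => ?_
        rw [aeval_cns]
        simp only [Fin.cons_succ]
        rw [mono_mul]
        have h3 := h2 a t
        rw [cf] at h3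
        have h4 : v 0 ^ (m - ∑ a, exS t a) = v 0 ^ (m - e) * v 0 ^ (e - ∑ a, exS t a) := by
          rw [← pow_add]
          congr 1
          have := exS_sum t
          omega
        rw [h4]
        linear_combination (v 0 ^ (m - e) * v 0 ^ (e - ∑ a, exS t a) *
          mono (fun a => v a.succ) (exS t)) * h3

theorem KK_mono {W W' B B' n : ℕ} (hW : W ≤ W') (hB : B ≤ B') : KK W B n ≤ KK W' B' n := by
  unfold KK
  gcongr

theorem bound_le (N e D : ℕ) :
    2 * KK (Fintype.card (Fin N ⊕ Sx N e))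
      (2 * (Fintype.card (Fin N ⊕ Sx N e) * (N * (e + 1)))) D ≤ bound N e D := by
  have h1 : Fintype.card (Fin N ⊕ Sx N e) ≤ N + (e + 1) ^ N := by
    rw [Fintype.card_sum, Fintype.card_fin]
    exact Nat.add_le_add_left (card_Sx N e) N
  have h2 := KK_mono (n := D) h1 (Nat.mul_le_mul_left 2 (Nat.mul_le_mul_right (N * (e + 1)) h1))
  rw [bound]
  unfold KK at h2 ⊢
  omega

/-- The exceptional form. -/
noncomputable def GG {k : Type*} [Field k] {N : ℕ} (e m : ℕ)
    (Φ : Fin (N + 1) → MvPolynomial (Fin (N + 1)) k) : MvPolynomial (Fin (N + 1)) k :=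
  X 0 * G1 e m Φ

theorem main {k : Type u} [Field k] [Algebra ℂ k] {N e m D : ℕ} (hm1 : 1 ≤ m) (he : e < m)
    (hm : bound N e D < m) (Φ : Fin (N + 1) → MvPolynomial (Fin (N + 1)) k)
    (hE : IsEndo m (baseChange (AlgebraicClosure k) Φ)) (h0 : Φ 0 = X 0 ^ m)
    (A : Matrix (Fin N) (Fin N) k) (hA : A.det ≠ 0) (r : Fin N → MvPolynomial (Fin (N + 1)) k)
    (hr : ∀ a, (r a).IsHomogeneous e)
    (hΦ : ∀ a, Φ a.succ = ∑ b, C (A a b) * X b.succ ^ m + X 0 ^ (m - e) * r a)
    (hniso : ¬ Isotrivial k m Φ) (hhom : ∀ i, (Φ i).IsHomogeneous m)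
    (x : Projectivization (AlgebraicClosure k) (Fin (N + 1) → AlgebraicClosure k))
    (hx : x ∈ Preper k Φ D) : aeval x.rep (GG e m Φ) = 0 := by
  obtain ⟨hfin, y, hy, hpos, hn⟩ := hx
  by_contra hG
  rw [GG, map_mul, aeval_X] at hG
  have hx0 : x.rep 0 ≠ 0 := left_ne_zero_of_mul hG
  have hG1 : aeval x.rep (G1 e m Φ) ≠ 0 := right_ne_zero_of_mul hG
  -- the affine coordinates
  obtain ⟨z, hz⟩ : ∃ z : Fin N → fieldOf k x,
      ∀ a, algebraMap (fieldOf k x) (AlgebraicClosure k) (z a) = x.rep a.succ / x.rep 0 :=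
    ⟨fun a => ⟨x.rep a.succ / x.rep 0, IntermediateField.subset_adjoin k _ ⟨a.succ, 0, rfl⟩⟩,
      fun a => rfl⟩
  obtain ⟨ι, hι⟩ : ∃ ι : (fieldOf k x) →+* AlgebraicClosure k, ι = algebraMap _ _ := ⟨_, rfl⟩
  have hrep : x.rep = x.rep 0 • (Fin.cons 1 (fun a => ι (z a)) :
      Fin (N + 1) → AlgebraicClosure k) := by
    funext i
    rw [Pi.smul_apply, smul_eq_mul]
    refine Fin.cases ?_ (fun a => ?_) i
    · rw [Fin.cons_zero, mul_one]
    · rw [Fin.cons_succ, hι, hz, mul_div_cancel₀ _ hx0]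
  have hxpt : x = pt fun a => ι (z a) := by
    conv_lhs => rw [← x.mk_rep]
    rw [pt, Projectivization.mk_eq_mk_iff']
    exact ⟨x.rep 0, hrep.symm⟩
  have hG2 : aeval (Fin.cons 1 z : Fin (N + 1) → fieldOf k x) (G1 e m Φ) ≠ 0 := by
    intro h
    apply hG1
    rw [hrep, eval_smul_form (G1_homogeneous he.le Φ hhom)]
    have h1 : aeval (Fin.cons 1 (fun a => ι (z a)) : Fin (N + 1) → AlgebraicClosure k)
        (G1 e m Φ) = ι (aeval (Fin.cons 1 z : Fin (N + 1) → fieldOf k x) (G1 e m Φ)) := by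
      have h2 := MvPolynomial.aeval_algebraMap_apply (AlgebraicClosure k)
        (Fin.cons 1 z : Fin (N + 1) → fieldOf k x) (G1 e m Φ)
      rw [hι, ← h2]
      congr 2
      funext i
      refine Fin.cases ?_ (fun a => ?_) i
      · rw [Function.comp_apply, Fin.cons_zero, Fin.cons_zero, map_one]
      · rw [Function.comp_apply, Fin.cons_succ, Fin.cons_succ]
    rw [h1, h, map_zero, mul_zero]
  have hfin2 : (Set.range fun i : ℕ => (affm (fieldOf k x) e m A r)^[i] z).Finite := by
    have h1 : ∀ i : ℕ, (act (baseChange (AlgebraicClosure k) Φ))^[i] x =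
        pt fun a => ι ((affm (fieldOf k x) e m A r)^[i] z a) := by
      intro i
      conv_lhs => rw [hxpt]
      rw [act_pt_iter Φ hE h0 A r hr hΦ]
      congr 1
      rw [hι]
      exact affm_map_iter A r i z
    have h2 : Function.Injective fun w : Fin N → fieldOf k x =>
        pt (K := AlgebraicClosure k) fun a => ι (w a) := by
      intro w w' h
      funext a
      exact ι.injective (congrFun (pt_injective h) a)
    refine Set.Finite.of_finite_image (f := fun w : Fin N → fieldOf k x =>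
        pt (K := AlgebraicClosure k) fun a => ι (w a)) ?_ h2.injOn
    refine hfin.subset ?_
    rintro _ ⟨_, ⟨i, rfl⟩, rfl⟩
    exact ⟨i, h1 i⟩
  obtain ⟨s, A0, q0, hs, hA0, h1, h2⟩ := key (F := ℂ) y hy hpos hn hm1 he
    (lt_of_le_of_lt (bound_le N e D) hm) Φ h0 A hA r hr hΦ z hfin2 hG2
  apply hniso
  have hC : ∀ c : ℂ, ι (algebraMap ℂ (fieldOf k x) c) = algebraMap ℂ (AlgebraicClosure k) c := by
    intro c; rw [hι]; rfl
  have hk : ∀ c : k, ι (algebraMap k (fieldOf k x) c) = algebraMap k (AlgebraicClosure k) c := by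
    intro c; rw [hι]; rfl
  refine isotrivial_of he Φ hE h0 A r hr hΦ (fun a => ι (s a))
    (fun a => (map_ne_zero ι).2 (hs a)) A0 hA0 q0 (fun a b => ?_) (fun a t => ?_)
  · have h3 := congrArg ι (h1 a b)
    rwa [map_mul, map_mul, map_pow, hC, hk] at h3
  · have h3 := congrArg ι (h2 a t)
    rwa [map_mul, map_mul, Pool.Agent.Lib.P62i.map_mono, hC, hk] at h3

end aux

open Pool.Agent.Lib.P62i in
/-- Preperiodic points of bounded gonality of the maps `x ↦ A x^(m) + q(x)` lie on a hypersurface of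
bounded degree, which does not depend on the bound for the gonality. -/
theorem result (N e m : ℕ) (hN : 1 ≤ N) :
    ∃ c : ℕ, ∀ (k : Type u) [Field k] [Algebra ℂ k]
      (Φ : Fin (N + 1) → MvPolynomial (Fin (N + 1)) k), PowerType m e Φ →
      IsEndo m (baseChange (AlgebraicClosure k) Φ) → ¬ Isotrivial k m Φ →
      ∃ G : MvPolynomial (Fin (N + 1)) k, G ≠ 0 ∧ G.IsHomogeneous c ∧
        ∀ D : ℕ, bound N e D < m → ∀ x ∈ Preper k Φ D, aeval x.rep G = 0 := by
  refine ⟨1 + ∑ i : Fin (EE N e m).card, m ^ (i : ℕ) * (2 * m), ?_⟩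
  rintro k _ _ Φ ⟨h0, A, hA, r, hr, hΦ⟩ hE hniso
  by_cases hD : ∃ D, bound N e D < m
  · obtain ⟨D0, hD0⟩ := hD
    have h1 : e + 2 ≤ bound N e D0 := by
      rw [bound]
      have h2 : 1 ≤ N + (e + 1) ^ N := by omega
      have h3 : e + 1 ≤ (N + (e + 1) ^ N) * (N * (e + 1)) := by
        calc e + 1 = 1 * (1 * (e + 1)) := by ring
          _ ≤ _ := Nat.mul_le_mul h2 (Nat.mul_le_mul_right _ hN)
      omega
    have he : e < m := by omega
    have hm2 : 2 ≤ m := by omega
    have hhom : ∀ i, (Φ i).IsHomogeneous m := fun i =>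
      IsHomogeneous.of_map (algebraMap k (AlgebraicClosure k)).injective (hE.1 i)
    refine ⟨GG e m Φ, mul_ne_zero (X_ne_zero 0) (G1_ne_zero hm2 he Φ hhom h0 A hA r hr hΦ),
      (isHomogeneous_X k 0).mul (G1_homogeneous he.le Φ hhom), fun D hD x hx => ?_⟩
    exact main (by omega) he hD Φ hE h0 A hA r hr hΦ hniso hhom x hx
  · refine ⟨X 0 ^ (1 + ∑ i : Fin (EE N e m).card, m ^ (i : ℕ) * (2 * m)),
      pow_ne_zero _ (X_ne_zero 0), ?_, fun D hD' => absurd ⟨D, hD'⟩ hD⟩
    have := (isHomogeneous_X k (0 : Fin (N + 1))).pow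
      (1 + ∑ i : Fin (EE N e m).card, m ^ (i : ℕ) * (2 * m))
    rwa [one_mul] at this

end Pool.Agent.Results.MP_62a0c3_nt.HigherDimension
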