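import Pool.Agent.Lib.P62c.FinU

/-!
# Uniform boundedness (N = 1, all D) for rational maps which factor through a Chebyshev polynomial
-/

namespace Pool.Agent.Results.MP_62a0c3_nt.MapsThroughChebyshev

open Polynomial IntermediateField

universe u

/-- The self-map `x ↦ P(x) / Q(x)` of `ℙ¹(L) = L ∪ {∞}`. For coprime `P, Q` with
`max (deg P) (deg Q) = d` this is the endomorphism of degree `d` given by `P` and `Q`; its value at
`∞` is the quotient of the coefficients of `X ^ d`. -/
noncomputable def ratMap {L : Type*} [Field L] (P Q : L[X]) (d : ℕ) : OnePoint L → OnePoint L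
  | OnePoint.infty => open Classical in
      if Q.coeff d = 0 then OnePoint.infty else ((P.coeff d / Q.coeff d : L) : OnePoint L)
  | OnePoint.some z => open Classical in
      if Q.eval z = 0 then OnePoint.infty else ((P.eval z / Q.eval z : L) : OnePoint L)

/-- The Möbius map `x ↦ (a x + b) / (c x + e)`. -/
noncomputable def mob {L : Type*} [Field L] (a b c e : L) : OnePoint L → OnePoint L :=
  ratMap (C a * X + C b) (C c * X + C e) 1

/-- The Chebyshev map: `∞ ↦ ∞` and `x ↦ T_m(x)`, where `T_m = dickson 1 1 m` is the polynomial of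
degree `m` with `T_m(s + 1/s) = s ^ m + 1 / s ^ m` (`m ≥ 1`). -/
noncomputable def chebMap (L : Type*) [Field L] (m : ℕ) : OnePoint L → OnePoint L :=
  ratMap (dickson 1 (1 : L) m) 1 m

/-- An endomorphism `f` of degree `d` of `ℙ¹` over `k` is isotrivial if it is conjugate, by a Möbius
map over the algebraic closure, to one with complex coefficients. -/
def Isotrivial (k : Type u) [Field k] [Algebra ℂ k] (d : ℕ)
    (f : OnePoint (AlgebraicClosure k) → OnePoint (AlgebraicClosure k)) : Prop :=
  ∃ a b c e : AlgebraicClosure k, a * e - b * c ≠ 0 ∧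
    ∃ P Q : ℂ[X], IsCoprime P Q ∧ max P.natDegree Q.natDegree = d ∧
      ∀ x, f (mob a b c e x) =
        mob a b c e (ratMap (P.map (algebraMap ℂ (AlgebraicClosure k)))
          (Q.map (algebraMap ℂ (AlgebraicClosure k))) d x)

/-- The field `k(x)` of a point `x` of `ℙ¹` over the algebraic closure. -/
noncomputable def fieldOf (k : Type u) [Field k] :
    OnePoint (AlgebraicClosure k) → IntermediateField k (AlgebraicClosure k)
  | OnePoint.infty => ⊥
  | OnePoint.some z => k⟮z⟯

/-- The gonality of the function field `K` is at most `D`: there is a transcendental `y` with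
`[K : ℂ(y)] ≤ D`. -/
def GonalityLE (K : Type u) [Field K] [Algebra ℂ K] (D : ℕ) : Prop :=
  ∃ y : K, Transcendental ℂ y ∧ 0 < Module.finrank ℂ⟮y⟯ K ∧ Module.finrank ℂ⟮y⟯ K ≤ D

/-- The endomorphism of `ℙ¹` over `k` given by `P, Q ∈ k[X]`, acting on the points over the
algebraic closure. -/
noncomputable def endo (k : Type u) [Field k] (P Q : k[X]) (d : ℕ) :
    OnePoint (AlgebraicClosure k) → OnePoint (AlgebraicClosure k) :=
  ratMap (P.map (algebraMap k (AlgebraicClosure k))) (Q.map (algebraMap k (AlgebraicClosure k))) d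

/-- `f = A ∘ T_m ∘ g` for rational functions `A`, `g` over `K` with `deg A * deg g = e`. -/
def ThroughCheb {K : Type u} [Field K] (m e : ℕ) (f : OnePoint K → OnePoint K) : Prop :=
  ∃ (a b : ℕ) (PA QA Pg Qg : K[X]), a * b = e ∧ IsCoprime PA QA ∧
    max PA.natDegree QA.natDegree = a ∧ IsCoprime Pg Qg ∧ max Pg.natDegree Qg.natDegree = b ∧
    ∀ x, f x = ratMap PA QA a (chebMap K m (ratMap Pg Qg b x))

/-- The set `Preper(f, D)`. -/
def Preper (k : Type u) [Field k] [Algebra ℂ k]
    (f : OnePoint (AlgebraicClosure k) → OnePoint (AlgebraicClosure k)) (D : ℕ) :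
    Set (OnePoint (AlgebraicClosure k)) :=
  {x | (Set.range fun n : ℕ => f^[n] x).Finite ∧ GonalityLE (fieldOf k x) D}

section aux

open Pool.Agent.Lib.P62a0c3 Pool.Agent.Lib.P62h

theorem ratMap_eq {L : Type*} [Field L] (P Q : L[X]) (d : ℕ) (x : OnePoint L) :
    ratMap P Q d x = rm P Q d x := by
  induction x using OnePoint.rec with
  | infty => rfl
  | coe z => rfl

theorem ratMap_eq' {L : Type*} [Field L] (P Q : L[X]) (d : ℕ) : ratMap P Q d = rm P Q d :=
  funext (ratMap_eq P Q d)

/-- Points of `ℙ¹` over the algebraic closure come from their field. -/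
theorem exists_lift {k : Type u} [Field k] (x : OnePoint (AlgebraicClosure k)) :
    ∃ y : OnePoint (fieldOf k x),
      OnePoint.map (algebraMap (fieldOf k x) (AlgebraicClosure k)) y = x := by
  induction x using OnePoint.rec with
  | infty => exact ⟨OnePoint.infty, OnePoint.map_infty _⟩
  | coe z =>
    refine ⟨((⟨z, mem_adjoin_simple_self k z⟩ : k⟮z⟯) : OnePoint k⟮z⟯), ?_⟩
    rfl

end aux

open Pool.Agent.Lib.P62a0c3 Pool.Agent.Lib.P62h Pool.Agent.Lib.P62c in
/-- Uniform boundedness for `N = 1`, every `D`, and all rational maps `f = A ∘ T_m ∘ g` with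
`deg A * deg g = e` and `m` large in terms of `e` and `D`. -/
theorem result (D e m : ℕ) (he : 1 ≤ e)
    (hm : 2 * (217 * (2 * e) ^ 2) ^ 5 *
      (2 * (4 * e * D * 2 ^ (288 * (2 * e) ^ 4 + 4 * e + 1)) ^ 4 + 4) < m) :
    ∃ C : ℕ, ∀ (k : Type u) [Field k] [Algebra ℂ k] (P Q : k[X]), IsCoprime P Q →
      max P.natDegree Q.natDegree = e * m → ThroughCheb m e (endo k P Q (e * m)) →
      ¬ Isotrivial k (e * m) (endo k P Q (e * m)) →
      (Preper k (endo k P Q (e * m)) D).Finite ∧ (Preper k (endo k P Q (e * m)) D).ncard ≤ C := by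
  refine ⟨bound e m + boundT e m, ?_⟩
  rintro k _ _ P Q hcop hdeg ⟨a, b, PA, QA, Pg, Qg, hab, hA, hAa, hg, hgb, hf⟩ hniso
  have : CharZero k := charZero_of_injective_algebraMap (algebraMap ℂ k).injective
  subst hab
  have ha : 1 ≤ a := Nat.pos_of_ne_zero (by rintro rfl; simp at he)
  have hb : 1 ≤ b := Nat.pos_of_ne_zero (by rintro rfl; simp at he)
  have hdd : a * b * m = a * (m * b) := by ring
  have h4 : 4 * (a * b) * D = 2 * (a * b) * 2 * D := by ring
  rw [h4] at hm
  rw [hdd] at hdeg hf hniso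
  rw [hdd]
  rw [endo, ratMap_eq'] at hf hniso
  obtain ⟨T, hT1, hT2⟩ := keyU (F := ℂ) ha hb hm hcop hdeg hA hAa hg hgb (by
    intro x
    rw [hf x, chebMap, ratMap_eq', ratMap_eq', ratMap_eq']) (by
    rintro ⟨α, β, γ, δ, P1, Q1, hdet, hc1, hd1, hall⟩
    apply hniso
    refine ⟨α, β, γ, δ, hdet, P1, Q1, hc1, hd1, ?_⟩
    intro x
    rw [mob, ratMap_eq', ratMap_eq']
    exact hall x)
  have hsub : Preper k (endo k P Q (a * (m * b))) D ⊆ T := by
    rintro x ⟨hfin, hgon⟩
    obtain ⟨y, hy⟩ := exists_lift x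
    have h := hT2 (fieldOf k x) hgon y (by
      rw [hy]
      rw [endo, ratMap_eq'] at hfin
      exact hfin)
    rw [hy] at h
    exact h
  have hfinite : (Preper k (endo k P Q (a * (m * b))) D).Finite := T.finite_toSet.subset hsub
  refine ⟨hfinite, ?_⟩
  have h1 := Set.ncard_le_ncard hsub T.finite_toSet
  rw [Set.ncard_coe_finset] at h1
  exact h1.trans hT1

end Pool.Agent.Results.MP_62a0c3_nt.MapsThroughChebyshev
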