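import Pool.Agent.Lib.P62c.FinU
import Pool.Agent.Lib.P62c.FinP
import Pool.Agent.Lib.P62c.SymB
import Pool.Agent.Lib.P62c.SymI

/-!
# Uniform boundedness in every dimension `N` for symmetric powers of maps of `ℙ¹` which factor
through a high power map or a Chebyshev polynomial of high degree
-/

namespace Pool.Agent.Results.MP_62a0c3_nt.SymmetricPowers

open Polynomial IntermediateField

universe u

/-! ### Maps of `ℙ¹` -/

/-- The self-map `x ↦ P(x) / Q(x)` of `ℙ¹(L) = L ∪ {∞}`. For coprime `P, Q` with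
`max (deg P) (deg Q) = d` this is the endomorphism of degree `d` given by `P` and `Q`; its value at
`∞` is the quotient of the coefficients of `X ^ d`. -/
noncomputable def ratMap {L : Type*} [Field L] (P Q : L[X]) (d : ℕ) : OnePoint L → OnePoint L
  | OnePoint.infty => open Classical in
      if Q.coeff d = 0 then OnePoint.infty else ((P.coeff d / Q.coeff d : L) : OnePoint L)
  | OnePoint.some z => open Classical in
      if Q.eval z = 0 then OnePoint.infty else ((P.eval z / Q.eval z : L) : OnePoint L)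

/-- The power map `x ↦ x ^ m`. -/
noncomputable def powMap (L : Type*) [Field L] (m : ℕ) : OnePoint L → OnePoint L :=
  ratMap (X ^ m) 1 m

/-- The Chebyshev map: `∞ ↦ ∞` and `x ↦ T_m(x)`, where `T_m = dickson 1 1 m` is the polynomial of
degree `m` with `T_m(s + 1/s) = s ^ m + 1 / s ^ m` (`m ≥ 1`). -/
noncomputable def chebMap (L : Type*) [Field L] (m : ℕ) : OnePoint L → OnePoint L :=
  ratMap (dickson 1 (1 : L) m) 1 m

/-- The endomorphism of `ℙ¹` over `k` given by `P, Q ∈ k[X]`, acting on the points over the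
algebraic closure. -/
noncomputable def endo (k : Type u) [Field k] (P Q : k[X]) (d : ℕ) :
    OnePoint (AlgebraicClosure k) → OnePoint (AlgebraicClosure k) :=
  ratMap (P.map (algebraMap k (AlgebraicClosure k))) (Q.map (algebraMap k (AlgebraicClosure k))) d

/-- `f = A ∘ h ∘ g` for rational functions `A`, `g` over `K` with `deg A * deg g = e`. -/
def Through {K : Type u} [Field K] (e : ℕ) (h f : OnePoint K → OnePoint K) : Prop :=
  ∃ (a b : ℕ) (PA QA Pg Qg : K[X]), a * b = e ∧ IsCoprime PA QA ∧
    max PA.natDegree QA.natDegree = a ∧ IsCoprime Pg Qg ∧ max Pg.natDegree Qg.natDegree = b ∧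
    ∀ x, f x = ratMap PA QA a (h (ratMap Pg Qg b x))

/-! ### Maps of `ℙ^N` -/

/-- The self-map of `ℙ^N(K)` given by the forms `Φ_0, …, Φ_N` (a point at which all of them vanish
is left fixed; there is none if `Φ` is an endomorphism and `K` is algebraically closed). -/
noncomputable def act {K : Type*} [Field K] {N : ℕ}
    (Φ : Fin (N + 1) → MvPolynomial (Fin (N + 1)) K)
    (x : Projectivization K (Fin (N + 1) → K)) : Projectivization K (Fin (N + 1) → K) :=
  open Classical in
  if h : (fun i => MvPolynomial.eval x.rep (Φ i)) ≠ 0 then Projectivization.mk K _ h else x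

/-- `Φ` is an endomorphism of degree `d` of `ℙ^N` over the (algebraically closed) field `K`: forms of
degree `d` without a common zero in `ℙ^N(K)`. -/
def IsEndo {K : Type*} [Field K] {N : ℕ} (d : ℕ)
    (Φ : Fin (N + 1) → MvPolynomial (Fin (N + 1)) K) : Prop :=
  (∀ i, (Φ i).IsHomogeneous d) ∧
    ∀ v : Fin (N + 1) → K, (∀ i, MvPolynomial.eval v (Φ i) = 0) → v = 0

/-- Base change to the field `K`. -/
noncomputable def baseChange {k : Type*} [Field k] {N : ℕ} (K : Type*) [Field K] [Algebra k K]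
    (Φ : Fin (N + 1) → MvPolynomial (Fin (N + 1)) k) (i : Fin (N + 1)) :
    MvPolynomial (Fin (N + 1)) K :=
  MvPolynomial.map (algebraMap k K) (Φ i)

/-- The projective linear map given by the matrix `M`. -/
noncomputable def lin {K : Type*} [Field K] {N : ℕ} (M : Matrix (Fin (N + 1)) (Fin (N + 1)) K) :
    Projectivization K (Fin (N + 1) → K) → Projectivization K (Fin (N + 1) → K) :=
  act fun i => ∑ j, MvPolynomial.C (M i j) * MvPolynomial.X j

/-- The endomorphism `Φ` of degree `d` over `k` is isotrivial: over the algebraic closure it is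
conjugate by a projective linear map to an endomorphism of degree `d` over `ℂ`. -/
def Isotrivial (k : Type u) [Field k] [Algebra ℂ k] {N : ℕ} (d : ℕ)
    (Φ : Fin (N + 1) → MvPolynomial (Fin (N + 1)) k) : Prop :=
  ∃ M : Matrix (Fin (N + 1)) (Fin (N + 1)) (AlgebraicClosure k), M.det ≠ 0 ∧
    ∃ Φ₀ : Fin (N + 1) → MvPolynomial (Fin (N + 1)) ℂ, IsEndo d Φ₀ ∧
      ∀ x, act (baseChange (AlgebraicClosure k) Φ) (lin M x) =
        lin M (act (baseChange (AlgebraicClosure k) Φ₀) x)

/-- The field `k(x)` of a point `x` of `ℙ^N` over the algebraic closure: it is generated by the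
quotients of the homogeneous coordinates. -/
noncomputable def fieldOf (k : Type u) [Field k] {N : ℕ}
    (x : Projectivization (AlgebraicClosure k) (Fin (N + 1) → AlgebraicClosure k)) :
    IntermediateField k (AlgebraicClosure k) :=
  IntermediateField.adjoin k {z | ∃ i j, z = x.rep i / x.rep j}

/-- The gonality of the function field `K` is at most `D`: there is a transcendental `y` with
`[K : ℂ(y)] ≤ D`. -/
def GonalityLE (K : Type u) [Field K] [Algebra ℂ K] (D : ℕ) : Prop :=
  ∃ y : K, Transcendental ℂ y ∧ 0 < Module.finrank ℂ⟮y⟯ K ∧ Module.finrank ℂ⟮y⟯ K ≤ D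

/-- The set `Preper(Φ, D)`. -/
def Preper (k : Type u) [Field k] [Algebra ℂ k] {N : ℕ}
    (Φ : Fin (N + 1) → MvPolynomial (Fin (N + 1)) k) (D : ℕ) :
    Set (Projectivization (AlgebraicClosure k) (Fin (N + 1) → AlgebraicClosure k)) :=
  {x | (Set.range fun n : ℕ => (act (baseChange (AlgebraicClosure k) Φ))^[n] x).Finite ∧
    GonalityLE (fieldOf k x) D}

/-! ### Symmetric powers -/

/-- The linear form which vanishes at the point `p` of `ℙ¹`, as a polynomial of degree at most one:
`X - p`, and `1` for `p = ∞`. -/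
noncomputable def form {K : Type*} [Field K] : OnePoint K → K[X]
  | OnePoint.infty => 1
  | OnePoint.some z => X - C z

/-- `x ∈ ℙ^N` is the image of `(y_1, …, y_N) ∈ (ℙ¹)^N` under `(ℙ¹)^N → Sym^N(ℙ¹) = ℙ^N`: the
coordinates of `x` are, up to a common factor, the coefficients of the product of the linear forms
of the `y_i`. -/
def IsSym {K : Type*} [Field K] {N : ℕ} (y : Fin N → OnePoint K)
    (x : Projectivization K (Fin (N + 1) → K)) : Prop :=
  ∃ c : K, c ≠ 0 ∧ ∀ j : Fin (N + 1), x.rep j = c * (∏ i, form (y i)).coeff j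

/-- `F` is the `N`-th symmetric power of `f`: it sends the image of `(y_1, …, y_N)` to the image of
`(f(y_1), …, f(y_N))`. -/
def IsSymPower {K : Type*} [Field K] {N : ℕ} (f : OnePoint K → OnePoint K)
    (F : Projectivization K (Fin (N + 1) → K) → Projectivization K (Fin (N + 1) → K)) : Prop :=
  ∀ (y : Fin N → OnePoint K) (x : Projectivization K (Fin (N + 1) → K)), IsSym y x →
    IsSym (fun i => f (y i)) (F x)

/-- `f = A ∘ h ∘ g` with `deg A * deg g = e`, where `h` is the power map `x ^ m` or the Chebyshev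
polynomial `T_m`, and `m` is large in terms of `e` and `n`. -/
def Large {K : Type u} [Field K] (n e m : ℕ) (f : OnePoint K → OnePoint K) : Prop :=
  (2 * (217 * e ^ 2) ^ 5 * (2 * (2 * e * n) ^ 4 + 4) < m ∧ Through e (powMap K m) f) ∨
  (2 * (217 * (2 * e) ^ 2) ^ 5 *
      (2 * (4 * e * n * 2 ^ (288 * (2 * e) ^ 4 + 4 * e + 1)) ^ 4 + 4) < m ∧
    Through e (chebMap K m) f)

section aux

open Pool.Agent.Lib.P62a0c3 Pool.Agent.Lib.P62h Pool.Agent.Lib.P62c

theorem ratMap_eq {L : Type*} [Field L] (P Q : L[X]) (d : ℕ) (x : OnePoint L) :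
    ratMap P Q d x = rm P Q d x := by
  induction x using OnePoint.rec with
  | infty => rfl
  | coe z => rfl

theorem ratMap_eq' {L : Type*} [Field L] (P Q : L[X]) (d : ℕ) : ratMap P Q d = rm P Q d :=
  funext (ratMap_eq P Q d)

theorem form_eq {K : Type*} [Field K] (p : OnePoint K) : form p = linf p := by
  induction p using OnePoint.rec with
  | infty => rfl
  | coe z => rfl

theorem isSym_iff {K : Type*} [Field K] {N : ℕ} (y : Fin N → OnePoint K)
    (x : Projectivization K (Fin (N + 1) → K)) : IsSym y x ↔ sym y = x := by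
  have e1 : (∏ i, form (y i)) = prodf y := Finset.prod_congr rfl fun i _ => form_eq (y i)
  unfold IsSym
  rw [e1]
  constructor
  · rintro ⟨c, hc, h⟩
    have h1 : Projectivization.mk K x.rep x.rep_nonzero = x := Projectivization.mk_rep x
    rw [← h1, sym, Projectivization.mk_eq_mk_iff']
    refine ⟨c⁻¹, ?_⟩
    funext j
    rw [Pi.smul_apply, smul_eq_mul, h j, inv_mul_cancel_left₀ hc]
  · intro h
    have h1 : sym y = Projectivization.mk K x.rep x.rep_nonzero :=
      h.trans (Projectivization.mk_rep x).symm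
    rw [sym, eq_comm, Projectivization.mk_eq_mk_iff'] at h1
    obtain ⟨c, hc⟩ := h1
    refine ⟨c, ?_, fun j => ?_⟩
    · rintro rfl
      apply x.rep_nonzero
      rw [← hc, zero_smul]
    · rw [← hc, Pi.smul_apply, smul_eq_mul]

theorem isSymPower_iff {K : Type*} [Field K] {N : ℕ} (f : OnePoint K → OnePoint K)
    (F : Projectivization K (Fin (N + 1) → K) → Projectivization K (Fin (N + 1) → K))
    (h : IsSymPower f F) (y : Fin N → OnePoint K) : F (sym y) = sym fun i => f (y i) :=
  ((isSym_iff _ _).1 (h y (sym y) ((isSym_iff _ _).2 rfl))).symm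

end aux

open Pool.Agent.Lib.P62a0c3 Pool.Agent.Lib.P62h Pool.Agent.Lib.P62c in
/-- Uniform boundedness for every `N ≥ 2` and every `D`, with empty exceptional set, for the `N`-th
symmetric powers of the maps `A ∘ x ^ m ∘ g` and `A ∘ T_m ∘ g` of `ℙ¹`. -/
theorem result (N D e m : ℕ) (_hN : 2 ≤ N) (he : 1 ≤ e) :
    ∃ B : ℕ, ∀ (k : Type u) [Field k] [Algebra ℂ k] (P Q : k[X]), IsCoprime P Q →
      max P.natDegree Q.natDegree = e * m → Large (N * D) e m (endo k P Q (e * m)) →
      (∃ Φ : Fin (N + 1) → MvPolynomial (Fin (N + 1)) k,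
        IsEndo (e * m) (baseChange (AlgebraicClosure k) Φ) ∧
        IsSymPower (endo k P Q (e * m)) (act (baseChange (AlgebraicClosure k) Φ))) ∧
      ∀ Φ : Fin (N + 1) → MvPolynomial (Fin (N + 1)) k,
        IsEndo (e * m) (baseChange (AlgebraicClosure k) Φ) →
        IsSymPower (endo k P Q (e * m)) (act (baseChange (AlgebraicClosure k) Φ)) →
        ¬ Isotrivial k (e * m) Φ →
        (Preper k Φ D).Finite ∧ (Preper k Φ D).ncard ≤ B := by
  refine ⟨(bound e m + boundT e m) ^ N, ?_⟩
  intro k _ _ P Q hcop hdeg hlarge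
  have : CharZero k := charZero_of_injective_algebraMap (algebraMap ℂ k).injective
  refine ⟨⟨symF N (e * m) P Q, ⟨fun i => (symF_hom N (e * m) P Q i).map _, fun v hv =>
    symF_ne (k := k) hcop hdeg v hv⟩, fun y x hyx => ?_⟩, ?_⟩
  · rw [isSym_iff] at hyx ⊢
    subst hyx
    have h1 := actL_sym (k := k) (K := AlgebraicClosure k) hcop hdeg y
    rw [endo, ratMap_eq']
    exact h1.symm
  intro Φ _ hΦ hn
  have hniso : ¬ IsoC (F := ℂ) (e * m) (endo k P Q (e * m)) := by
    intro hf
    obtain ⟨M, hM, Φ₀, h1, h2⟩ := iso_sym (F := ℂ) _ hf _ (isSymPower_iff _ _ hΦ)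
    exact hn ⟨M, hM, Φ₀, h1, h2⟩
  rcases hlarge with ⟨hm, a, b, PA, QA, Pg, Qg, hab, hA, hAa, hg, hgb, hf⟩ |
    ⟨hm, a, b, PA, QA, Pg, Qg, hab, hA, hAa, hg, hgb, hf⟩
  · subst hab
    have ha : 1 ≤ a := Nat.pos_of_ne_zero (by rintro rfl; simp at he)
    have hb : 1 ≤ b := Nat.pos_of_ne_zero (by rintro rfl; simp at he)
    have hdd : a * b * m = a * (m * b) := by ring
    rw [hdd] at hdeg hf hniso hΦ
    rw [endo, ratMap_eq'] at hf hniso hΦ
    obtain ⟨T, hT1, hT2⟩ := keyP (F := ℂ) ha hb hm hcop hdeg hA hAa hg hgb (by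
      intro x
      rw [hf x, powMap, ratMap_eq', ratMap_eq', ratMap_eq']) hniso
    exact sym_bound (F := ℂ) (k := k) (N := N) (D := D) _ _ (isSymPower_iff _ _ hΦ) T
      (hT1.trans (Nat.le_add_right _ _)) hT2 (Preper k Φ D) fun x hx => hx
  · subst hab
    have ha : 1 ≤ a := Nat.pos_of_ne_zero (by rintro rfl; simp at he)
    have hb : 1 ≤ b := Nat.pos_of_ne_zero (by rintro rfl; simp at he)
    have hdd : a * b * m = a * (m * b) := by ring
    have h4 : 4 * (a * b) * (N * D) = 2 * (a * b) * 2 * (N * D) := by ring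
    rw [h4] at hm
    rw [hdd] at hdeg hf hniso hΦ
    rw [endo, ratMap_eq'] at hf hniso hΦ
    obtain ⟨T, hT1, hT2⟩ := keyU (F := ℂ) ha hb hm hcop hdeg hA hAa hg hgb (by
      intro x
      rw [hf x, chebMap, ratMap_eq', ratMap_eq', ratMap_eq']) hniso
    exact sym_bound (F := ℂ) (k := k) (N := N) (D := D) _ _ (isSymPower_iff _ _ hΦ) T
      hT1 hT2 (Preper k Φ D) fun x hx => hx

end Pool.Agent.Results.MP_62a0c3_nt.SymmetricPowers
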